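import Mathlib
import Pool.Agent.H62LR.Basic

/-!
# ST50: real powers `r ≥ 2` preserve real-rootedness — definitions and the interface `NoEP`

For a finite set `s` of indices and `y : ι → ℝ` put `pr s y = ∏_{l ∈ s} (1 + y_l x)` and let
`cf s y k` be its coefficients.  `NoEP r` says that there is no *extremal point*: a `y > 0` such
that `f(x) = ∑ (cf s y k)^r x^k` vanishes at `x = -1` together with all derivatives `∂f/∂y_l`.
-/

open Polynomial Finset

namespace Pool.Agent.ST50

variable {ι : Type*} [DecidableEq ι]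

/-- the polynomial `∏_{l ∈ s} (1 + y_l x)` -/
noncomputable def pr (s : Finset ι) (y : ι → ℝ) : ℝ[X] := ∏ l ∈ s, (1 + C (y l) * X)

/-- its coefficients: elementary symmetric polynomials of `y_l`, `l ∈ s` -/
noncomputable def cf (s : Finset ι) (y : ι → ℝ) (k : ℕ) : ℝ := (pr s y).coeff k

/-- No extremal point for the exponent `r`.  (Any point `x = -λ`, `λ > 0`, can be moved to `-1` by
scaling `y`.) -/
def NoEP (r : ℝ) : Prop :=
  ∀ (s : Finset ℕ) (y : ℕ → ℝ), (∀ l ∈ s, 0 < y l) →
    ∑ k ∈ range (s.card + 1), (-1 : ℝ) ^ k * cf s y k ^ r = 0 →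
    (∀ l ∈ s, ∑ k ∈ range s.card,
      (-1 : ℝ) ^ k * (cf s y (k + 1) ^ (r - 1) * cf (s.erase l) y k) = 0) → False

/-! ### basic facts -/

omit [DecidableEq ι] in
lemma pr_empty (y : ι → ℝ) : pr (∅ : Finset ι) y = 1 := by simp [pr]

lemma pr_insert {s : Finset ι} {l : ι} (hl : l ∉ s) (y : ι → ℝ) :
    pr (insert l s) y = (1 + C (y l) * X) * pr s y := by
  unfold pr
  rw [Finset.prod_insert hl]

lemma pr_erase {s : Finset ι} {l : ι} (hl : l ∈ s) (y : ι → ℝ) :
    pr s y = (1 + C (y l) * X) * pr (s.erase l) y := by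
  unfold pr
  rw [Finset.mul_prod_erase s (fun l => 1 + C (y l) * X) hl]

omit [DecidableEq ι] in
lemma pr_congr {s : Finset ι} {y y' : ι → ℝ} (h : ∀ l ∈ s, y l = y' l) : pr s y = pr s y' := by
  unfold pr
  exact Finset.prod_congr rfl (fun l hl => by rw [h l hl])

omit [DecidableEq ι] in
lemma cf_congr {s : Finset ι} {y y' : ι → ℝ} (h : ∀ l ∈ s, y l = y' l) (k : ℕ) :
    cf s y k = cf s y' k := by
  unfold cf
  rw [pr_congr h]

lemma cf_succ {s : Finset ι} {l : ι} (hl : l ∈ s) (y : ι → ℝ) (k : ℕ) :
    cf s y (k + 1) = cf (s.erase l) y (k + 1) + y l * cf (s.erase l) y k := by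
  unfold cf
  rw [pr_erase hl, add_mul, one_mul, coeff_add, mul_assoc, coeff_C_mul, coeff_X_mul]

omit [DecidableEq ι] in
lemma cf_zero (s : Finset ι) (y : ι → ℝ) : cf s y 0 = 1 := by
  unfold cf pr
  rw [coeff_zero_eq_eval_zero, eval_prod]
  refine Finset.prod_eq_one (fun l _ => ?_)
  simp

lemma cf_eq_zero {s : Finset ι} (y : ι → ℝ) {k : ℕ} (hk : s.card < k) : cf s y k = 0 := by
  induction s using Finset.induction_on generalizing k with
  | empty =>
    unfold cf
    rw [pr_empty, coeff_one, if_neg]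
    simp at hk
    omega
  | insert l s hl ih =>
    rw [Finset.card_insert_of_notMem hl] at hk
    obtain ⟨j, rfl⟩ := Nat.exists_eq_succ_of_ne_zero (show k ≠ 0 by omega)
    rw [Nat.succ_eq_add_one, cf_succ (Finset.mem_insert_self l s), Finset.erase_insert hl,
      ih (by omega), ih (by omega)]
    simp

lemma cf_nonneg {s : Finset ι} {y : ι → ℝ} (hy : ∀ l ∈ s, 0 ≤ y l) (k : ℕ) : 0 ≤ cf s y k := by
  induction s using Finset.induction_on generalizing k with
  | empty =>
    unfold cf
    rw [pr_empty, coeff_one]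
    split_ifs <;> norm_num
  | insert l s hl ih =>
    have ih' := ih (fun m hm => hy m (Finset.mem_insert_of_mem hm))
    rcases k with _ | k
    · rw [cf_zero]; norm_num
    · rw [cf_succ (Finset.mem_insert_self l s), Finset.erase_insert hl]
      have h1 := hy l (Finset.mem_insert_self l s)
      have h2 := mul_nonneg h1 (ih' k)
      have h3 := ih' (k + 1)
      linarith

lemma cf_pos {s : Finset ι} {y : ι → ℝ} (hy : ∀ l ∈ s, 0 < y l) {k : ℕ} (hk : k ≤ s.card) :
    0 < cf s y k := by
  induction s using Finset.induction_on generalizing k with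
  | empty =>
    obtain rfl : k = 0 := by simpa using hk
    rw [cf_zero]; norm_num
  | insert l s hl ih =>
    have hy' : ∀ m ∈ s, 0 < y m := fun m hm => hy m (Finset.mem_insert_of_mem hm)
    rcases k with _ | k
    · rw [cf_zero]; norm_num
    · rw [cf_succ (Finset.mem_insert_self l s), Finset.erase_insert hl]
      rw [Finset.card_insert_of_notMem hl] at hk
      have h1 := hy l (Finset.mem_insert_self l s)
      have h2 := mul_pos h1 (ih hy' (k := k) (by omega))
      have h3 := cf_nonneg (fun m hm => (hy' m hm).le) (k + 1)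
      linarith

end Pool.Agent.ST50
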