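import Mathlib
import Pool.Agent.ST50.Defs

/-!
# ST50.Cube: the compact parametrisation `∏ ((1 - z_l) + z_l x)`, `z ∈ [0,1]^s`
-/

open Polynomial Finset Filter Topology

namespace Pool.Agent.ST50

variable {ι : Type*} [DecidableEq ι]

/-- the polynomial `∏_{l ∈ s} ((1 - z_l) + z_l x)` -/
noncomputable def prz (s : Finset ι) (z : ι → ℝ) : ℝ[X] := ∏ l ∈ s, (C (1 - z l) + C (z l) * X)

/-- its coefficients -/
noncomputable def cz (s : Finset ι) (z : ι → ℝ) (k : ℕ) : ℝ := (prz s z).coeff k

lemma prz_erase {s : Finset ι} {l : ι} (hl : l ∈ s) (z : ι → ℝ) :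
    prz s z = (C (1 - z l) + C (z l) * X) * prz (s.erase l) z := by
  unfold prz
  rw [Finset.mul_prod_erase s (fun l => C (1 - z l) + C (z l) * X) hl]

lemma cz_zero' {s : Finset ι} {l : ι} (hl : l ∈ s) (z : ι → ℝ) :
    cz s z 0 = (1 - z l) * cz (s.erase l) z 0 := by
  unfold cz
  rw [prz_erase hl, add_mul, coeff_add, mul_assoc, coeff_C_mul, coeff_C_mul, coeff_X_mul_zero]
  ring

lemma cz_succ' {s : Finset ι} {l : ι} (hl : l ∈ s) (z : ι → ℝ) (k : ℕ) :
    cz s z (k + 1) = (1 - z l) * cz (s.erase l) z (k + 1) + z l * cz (s.erase l) z k := by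
  unfold cz
  rw [prz_erase hl, add_mul, coeff_add, mul_assoc, coeff_C_mul, coeff_C_mul, coeff_X_mul]

omit [DecidableEq ι] in
lemma cz_empty (z : ι → ℝ) (k : ℕ) : cz (∅ : Finset ι) z k = if k = 0 then 1 else 0 := by
  unfold cz prz
  rw [Finset.prod_empty, coeff_one]

lemma cz_continuous (s : Finset ι) (k : ℕ) : Continuous (fun z : ι → ℝ => cz s z k) := by
  induction s using Finset.induction_on generalizing k with
  | empty =>
    simp only [cz_empty]
    exact continuous_const
  | insert l s hl ih =>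
    rcases k with _ | k
    · have e : (fun z : ι → ℝ => cz (insert l s) z 0) = fun z => (1 - z l) * cz s z 0 := by
        funext z
        rw [cz_zero' (Finset.mem_insert_self l s), Finset.erase_insert hl]
      rw [e]
      exact (continuous_const.sub (continuous_apply l)).mul (ih 0)
    · have e : (fun z : ι → ℝ => cz (insert l s) z (k + 1)) =
          fun z => (1 - z l) * cz s z (k + 1) + z l * cz s z k := by
        funext z
        rw [cz_succ' (Finset.mem_insert_self l s), Finset.erase_insert hl]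
      rw [e]
      exact ((continuous_const.sub (continuous_apply l)).mul (ih (k + 1))).add
        ((continuous_apply l).mul (ih k))

lemma cz_nonneg {s : Finset ι} {z : ι → ℝ} (hz : ∀ l, 0 ≤ z l) (hz' : ∀ l, z l ≤ 1) (k : ℕ) :
    0 ≤ cz s z k := by
  induction s using Finset.induction_on generalizing k with
  | empty =>
    rw [cz_empty]
    split_ifs <;> norm_num
  | insert l s hl ih =>
    have h0 := hz l
    have h1 : 0 ≤ 1 - z l := by linarith [hz' l]
    rcases k with _ | k
    · rw [cz_zero' (Finset.mem_insert_self l s), Finset.erase_insert hl]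
      exact mul_nonneg h1 (ih 0)
    · rw [cz_succ' (Finset.mem_insert_self l s), Finset.erase_insert hl]
      exact add_nonneg (mul_nonneg h1 (ih _)) (mul_nonneg h0 (ih _))

lemma cz_eq_zero {s : Finset ι} (z : ι → ℝ) {k : ℕ} (hk : s.card < k) : cz s z k = 0 := by
  induction s using Finset.induction_on generalizing k with
  | empty =>
    rw [cz_empty, if_neg]
    simp at hk
    omega
  | insert l s hl ih =>
    rw [Finset.card_insert_of_notMem hl] at hk
    obtain ⟨j, rfl⟩ := Nat.exists_eq_succ_of_ne_zero (show k ≠ 0 by omega)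
    rw [Nat.succ_eq_add_one, cz_succ' (Finset.mem_insert_self l s), Finset.erase_insert hl,
      ih (by omega), ih (by omega)]
    simp

lemma cz_eq {s : Finset ι} {z : ι → ℝ} (hz : ∀ l ∈ s, z l < 1) (k : ℕ) :
    cz s z k = (∏ l ∈ s, (1 - z l)) * cf s (fun l => z l / (1 - z l)) k := by
  have e : prz s z = C (∏ l ∈ s, (1 - z l)) * pr s (fun l => z l / (1 - z l)) := by
    unfold prz pr
    rw [map_prod, ← Finset.prod_mul_distrib]
    refine Finset.prod_congr rfl (fun l hl => ?_)
    have h1 : (1 - z l) ≠ 0 := by linarith [hz l hl]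
    rw [mul_add, mul_one, ← mul_assoc, ← C_mul]
    congr 3
    field_simp
  unfold cz cf
  rw [e, coeff_C_mul]

omit [DecidableEq ι] in
lemma cf_smul (s : Finset ι) (y : ι → ℝ) (μ : ℝ) (k : ℕ) :
    cf s (fun l => μ * y l) k = μ ^ k * cf s y k := by
  have e : pr s (fun l => μ * y l) = (pr s y).comp (C μ * X) := by
    unfold pr
    rw [Polynomial.prod_comp]
    refine Finset.prod_congr rfl (fun l _ => ?_)
    simp only [add_comp, one_comp, mul_comp, C_comp, X_comp, C_mul]
    ring
  unfold cf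
  rw [e, comp_C_mul_X_coeff, mul_comm]

/-- the value of the polynomial at `-1` -/
noncomputable def D0 (s : Finset ι) (r : ℝ) (z : ι → ℝ) : ℝ :=
  ∑ k ∈ range (s.card + 1), (-1 : ℝ) ^ k * cz s z k ^ r

/-- the value of `x d/dx` of the polynomial at `-1` -/
noncomputable def D1 (s : Finset ι) (r : ℝ) (z : ι → ℝ) : ℝ :=
  ∑ k ∈ range (s.card + 1), (k : ℝ) * ((-1 : ℝ) ^ k * cz s z k ^ r)

lemma continuousOn_term (s : Finset ι) {ρ : ℝ} (k : ℕ) :
    ContinuousOn (fun q : ℝ × (ι → ℝ) => cz s q.2 k ^ q.1) (Set.Icc 2 ρ ×ˢ Set.Icc 0 1) := by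
  intro q hq
  refine ContinuousAt.continuousWithinAt ?_
  have h1 : ContinuousAt (fun q : ℝ × (ι → ℝ) => (cz s q.2 k, q.1)) q :=
    (((cz_continuous s k).comp continuous_snd).prodMk continuous_fst).continuousAt
  have h2 : ContinuousAt (fun p : ℝ × ℝ => p.1 ^ p.2) (cz s q.2 k, q.1) :=
    Real.continuousAt_rpow _ (Or.inr (by have := hq.1.1; simp only; linarith))
  exact ContinuousAt.comp (f := fun q : ℝ × (ι → ℝ) => (cz s q.2 k, q.1))
    (g := fun p : ℝ × ℝ => p.1 ^ p.2) h2 h1

lemma isCompact_dz (s : Finset ι) (ρ : ℝ) :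
    IsCompact ((Set.Icc 2 ρ ×ˢ Set.Icc (0 : ι → ℝ) 1) ∩
      {q : ℝ × (ι → ℝ) | D0 s q.1 q.2 = 0 ∧ D1 s q.1 q.2 = 0}) := by
  have hK : IsCompact (Set.Icc 2 ρ ×ˢ Set.Icc (0 : ι → ℝ) 1) := isCompact_Icc.prod isCompact_Icc
  have h0 : ContinuousOn (fun q : ℝ × (ι → ℝ) => D0 s q.1 q.2) (Set.Icc 2 ρ ×ˢ Set.Icc 0 1) := by
    unfold D0
    exact continuousOn_finsetSum _ (fun k _ => continuousOn_const.mul (continuousOn_term s k))
  have h1 : ContinuousOn (fun q : ℝ × (ι → ℝ) => D1 s q.1 q.2) (Set.Icc 2 ρ ×ˢ Set.Icc 0 1) := by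
    unfold D1
    exact continuousOn_finsetSum _ (fun k _ =>
      continuousOn_const.mul (continuousOn_const.mul (continuousOn_term s k)))
  have h2 := (h0.preimage_isClosed_of_isClosed hK.isClosed isClosed_singleton (t := {(0 : ℝ)})).inter
    (h1.preimage_isClosed_of_isClosed hK.isClosed isClosed_singleton (t := {(0 : ℝ)}))
  refine hK.of_isClosed_subset ?_ Set.inter_subset_left
  convert h2 using 1
  ext q
  simp only [Set.mem_inter_iff, Set.mem_ofPred_eq, Set.mem_preimage, Set.mem_singleton_iff]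
  tauto

/-- boundary points of the cube come from fewer factors -/
lemma dz_boundary {s : Finset ι} {r : ℝ} (hr : 0 < r) {z : ι → ℝ} {l : ι} (hl : l ∈ s)
    (hz : z l = 0 ∨ z l = 1) (h0 : D0 s r z = 0) (h1 : D1 s r z = 0) :
    D0 (s.erase l) r z = 0 ∧ D1 (s.erase l) r z = 0 := by
  have hcard : s.card = (s.erase l).card + 1 := (Finset.card_erase_add_one hl).symm
  have hz0 : (0 : ℝ) ^ r = 0 := Real.zero_rpow hr.ne'
  unfold D0 at h0 ⊢
  unfold D1 at h1 ⊢
  rw [hcard] at h0 h1
  rcases hz with hz | hz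
  · have e : ∀ k, cz s z k = cz (s.erase l) z k := by
      intro k
      rcases k with _ | k
      · rw [cz_zero' hl, hz]; ring
      · rw [cz_succ' hl, hz]; ring
    have e1 : cz (s.erase l) z ((s.erase l).card + 1) = 0 := cz_eq_zero z (Nat.lt_succ_self _)
    simp only [e] at h0 h1
    rw [Finset.sum_range_succ, e1, hz0, mul_zero, add_zero] at h0
    rw [Finset.sum_range_succ, e1, hz0, mul_zero, mul_zero, add_zero] at h1
    exact ⟨h0, h1⟩
  · have e : cz s z 0 = 0 := by
      rw [cz_zero' hl, hz]; ring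
    have e1 : ∀ k, cz s z (k + 1) = cz (s.erase l) z k := by
      intro k
      rw [cz_succ' hl, hz]; ring
    rw [Finset.sum_range_succ', e, hz0, mul_zero, add_zero] at h0
    rw [Finset.sum_range_succ', e, hz0, mul_zero, mul_zero, add_zero] at h1
    simp only [e1] at h0 h1
    have h0' : ∑ k ∈ range ((s.erase l).card + 1), (-1 : ℝ) ^ k * cz (s.erase l) z k ^ r = 0 := by
      have : ∑ k ∈ range ((s.erase l).card + 1), (-1 : ℝ) ^ (k + 1) * cz (s.erase l) z k ^ r =
          -∑ k ∈ range ((s.erase l).card + 1), (-1 : ℝ) ^ k * cz (s.erase l) z k ^ r := by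
        rw [← Finset.sum_neg_distrib]
        exact Finset.sum_congr rfl (fun k _ => by ring)
      rw [this] at h0
      linarith
    refine ⟨h0', ?_⟩
    have : ∑ k ∈ range ((s.erase l).card + 1), ((k + 1 : ℕ) : ℝ) *
        ((-1 : ℝ) ^ (k + 1) * cz (s.erase l) z k ^ r) =
        -(∑ k ∈ range ((s.erase l).card + 1), (k : ℝ) * ((-1 : ℝ) ^ k * cz (s.erase l) z k ^ r)) -
        ∑ k ∈ range ((s.erase l).card + 1), (-1 : ℝ) ^ k * cz (s.erase l) z k ^ r := by
      rw [← Finset.sum_neg_distrib, ← Finset.sum_sub_distrib]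
      refine Finset.sum_congr rfl (fun k _ => ?_)
      push_cast
      ring
    rw [this, h0'] at h1
    linarith

end Pool.Agent.ST50
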