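import Mathlib
import Pool.Agent.H62LR.Homotopy

/-!
# ST50.EPStep: at a multiple zero of a family that stays real-rooted the derivative vanishes
-/

open Polynomial Finset Filter Topology

namespace Pool.Agent.ST50

open Pool.Agent.H62LR

/-- Laguerre's inequality for a product of linear factors -/
lemma laguerre_prod (m : Multiset ℝ) (x : ℝ) :
    ((m.map (fun a => X - C a)).prod).eval x *
      (derivative (derivative (m.map (fun a => X - C a)).prod)).eval x ≤
      ((derivative (m.map (fun a => X - C a)).prod).eval x) ^ 2 := by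
  induction m using Multiset.induction_on with
  | empty => simp
  | cons a m ih =>
    rw [Multiset.map_cons, Multiset.prod_cons]
    set Q := (m.map (fun a => X - C a)).prod
    simp only [derivative_mul, derivative_sub, derivative_X, derivative_C, sub_zero, one_mul,
      derivative_add, eval_add, eval_mul, eval_sub, eval_X, eval_C]
    have h1 : 0 ≤ (x - a) ^ 2 * ((derivative Q).eval x ^ 2 -
        Q.eval x * (derivative (derivative Q)).eval x) :=
      mul_nonneg (sq_nonneg _) (by linarith)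
    have h2 := sq_nonneg (Q.eval x)
    nlinarith

/-- Laguerre's inequality -/
lemma laguerre_ineq {n : ℕ} {a : ℕ → ℝ} (ha : PF n a) (x : ℝ) :
    (poly n a).eval x * (derivative (derivative (poly n a))).eval x ≤
      ((derivative (poly n a)).eval x) ^ 2 := by
  have hs := Pool.Agent.H49.RR.RealRooted.splits ha.realRooted
  have e := hs.eq_prod_roots
  rw [e]
  have h := laguerre_prod (poly n a).roots x
  set P := ((poly n a).roots.map (fun a => X - C a)).prod
  set c := (poly n a).leadingCoeff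
  rw [derivative_C_mul, derivative_C_mul, eval_C_mul, eval_C_mul, eval_C_mul]
  have h1 := mul_le_mul_of_nonneg_left h (sq_nonneg c)
  nlinarith

lemma eval_d (n : ℕ) (a : ℕ → ℝ) (x : ℝ) :
    (derivative (poly n a)).eval x = ∑ k ∈ range (n + 1), a k * k * x ^ (k - 1) := by
  unfold poly
  rw [derivative_sum, eval_finsetSum]
  refine Finset.sum_congr rfl (fun k _ => ?_)
  rw [derivative_monomial, eval_monomial]

lemma eval_dd (n : ℕ) (a : ℕ → ℝ) (x : ℝ) :
    (derivative (derivative (poly n a))).eval x =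
      ∑ k ∈ range (n + 1), a k * k * ((k - 1 : ℕ) : ℝ) * x ^ (k - 1 - 1) := by
  unfold poly
  rw [derivative_sum, derivative_sum, eval_finsetSum]
  refine Finset.sum_congr rfl (fun k _ => ?_)
  rw [derivative_monomial, derivative_monomial, eval_monomial]

/-- **Extremal point step.** -/
theorem ep_step {n : ℕ} {a d : ℕ → ℝ} {r x0 : ℝ} (hr : 0 < r) (ha : ∀ k ≤ n, 0 < a k)
    (hPF : ∀ᶠ κ in 𝓝 (0 : ℝ), PF n (fun k => (a k + κ * d k) ^ r))
    (h0 : (poly n (fun k => a k ^ r)).eval x0 = 0)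
    (h1 : (derivative (poly n (fun k => a k ^ r))).eval x0 = 0) :
    ∑ k ∈ range (n + 1), a k ^ (r - 1) * d k * x0 ^ k = 0 := by
  by_contra hne
  set p : ℝ[X] := poly n (fun k => a k ^ r) with hp
  set G : ℝ := r * ∑ k ∈ range (n + 1), a k ^ (r - 1) * d k * x0 ^ k with hG
  have hG0 : G ≠ 0 := mul_ne_zero hr.ne' hne
  have hp0 : p ≠ 0 := by
    intro h
    have := congrArg (fun q => q.coeff 0) h
    simp only [hp, coeff_poly, if_pos (Nat.zero_le n), coeff_zero] at this
    have h2 := Real.rpow_pos_of_pos (ha 0 (Nat.zero_le _)) r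
    linarith
  have hm : 1 < p.rootMultiplicity x0 := (one_lt_rootMultiplicity_iff_isRoot hp0).2 ⟨h0, h1⟩
  obtain ⟨Q, hQ, hQ'⟩ := exists_eq_pow_rootMultiplicity_mul_and_not_dvd p hp0 x0
  obtain ⟨j, hj⟩ : ∃ j, p.rootMultiplicity x0 = j + 2 := ⟨p.rootMultiplicity x0 - 2, by omega⟩
  rw [hj] at hQ
  set c : ℝ := Q.eval x0 with hc
  have hc0 : c ≠ 0 := by
    intro h
    exact hQ' (dvd_iff_isRoot.2 h)
  -- the curve
  set κ : ℝ → ℝ := fun z => 2 * c / G * z ^ (j + 2) with hκ
  have hκ0 : Tendsto κ (𝓝[>] 0) (𝓝 0) := by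
    have : Tendsto κ (𝓝 0) (𝓝 (2 * c / G * 0 ^ (j + 2))) := by
      have hcont : Continuous κ := by
        rw [hκ]; fun_prop
      exact hcont.tendsto 0
    simp at this
    exact this.mono_left nhdsWithin_le_nhds
  have hκne : ∀ᶠ z in 𝓝[>] (0 : ℝ), κ z ≠ 0 := by
    filter_upwards [self_mem_nhdsWithin] with z hz
    have hz' : (0 : ℝ) < z := hz
    have : 2 * c / G ≠ 0 := by positivity
    exact mul_ne_zero this (pow_ne_zero _ hz'.ne')
  have hκ' : Tendsto κ (𝓝[>] 0) (𝓝[≠] 0) :=
    tendsto_nhdsWithin_iff.2 ⟨hκ0, hκne⟩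
  set δ : ℝ → ℕ → ℝ := fun z k => ((a k + κ z * d k) ^ r - a k ^ r) / κ z with hδ
  have hδlim : ∀ k ≤ n, Tendsto (fun z => δ z k) (𝓝[>] 0) (𝓝 (r * a k ^ (r - 1) * d k)) := by
    intro k hk
    have h2 : HasDerivAt (fun t : ℝ => (a k + t * d k) ^ r) (r * a k ^ (r - 1) * d k) 0 := by
      have h3 : HasDerivAt (fun t : ℝ => a k + t * d k) (d k) 0 := by
        have := ((hasDerivAt_id (0 : ℝ)).mul_const (d k)).const_add (a k)
        simpa using this
      have h4 := h3.rpow_const (p := r) (Or.inl (by simpa using (ha k hk).ne'))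
      convert h4 using 1
      simp
      ring
    have h5 := (hasDerivAt_iff_tendsto_slope.1 h2).comp hκ'
    refine h5.congr (fun z => ?_)
    simp only [Function.comp, slope_def_field, hδ, zero_mul, add_zero, sub_zero]
  have hx : Tendsto (fun z : ℝ => x0 + z) (𝓝[>] 0) (𝓝 x0) := by
    have : Tendsto (fun z : ℝ => x0 + z) (𝓝 0) (𝓝 (x0 + 0)) :=
      (continuous_const.add continuous_id).tendsto 0
    rw [add_zero] at this
    exact this.mono_left nhdsWithin_le_nhds
  have hz0 : Tendsto (fun z : ℝ => z) (𝓝[>] 0) (𝓝 0) := nhdsWithin_le_nhds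
  have mem : ∀ {k}, k ∈ range (n + 1) → k ≤ n := fun hk => by
    simpa [Nat.lt_succ_iff] using hk
  -- limits of the perturbations
  have hR0 : Tendsto (fun z => (poly n (δ z)).eval (x0 + z)) (𝓝[>] 0) (𝓝 G) := by
    have h2 : Tendsto (fun z => ∑ k ∈ range (n + 1), δ z k * (x0 + z) ^ k) (𝓝[>] 0)
        (𝓝 (∑ k ∈ range (n + 1), r * a k ^ (r - 1) * d k * x0 ^ k)) :=
      tendsto_finsetSum _ (fun k hk => (hδlim k (mem hk)).mul (hx.pow k))
    have e : ∑ k ∈ range (n + 1), r * a k ^ (r - 1) * d k * x0 ^ k = G := by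
      rw [hG, Finset.mul_sum]
      exact Finset.sum_congr rfl (fun k _ => by ring)
    rw [e] at h2
    refine h2.congr (fun z => ?_)
    rw [eval_poly]
  obtain ⟨L1, hR1⟩ : ∃ L, Tendsto (fun z => (derivative (poly n (δ z))).eval (x0 + z))
      (𝓝[>] 0) (𝓝 L) := by
    refine ⟨∑ k ∈ range (n + 1), r * a k ^ (r - 1) * d k * k * x0 ^ (k - 1), ?_⟩
    have h2 : Tendsto (fun z => ∑ k ∈ range (n + 1), δ z k * k * (x0 + z) ^ (k - 1)) (𝓝[>] 0)
        (𝓝 (∑ k ∈ range (n + 1), r * a k ^ (r - 1) * d k * k * x0 ^ (k - 1))) :=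
      tendsto_finsetSum _ (fun k hk => ((hδlim k (mem hk)).mul_const _).mul (hx.pow (k - 1)))
    refine h2.congr (fun z => ?_)
    rw [eval_d]
  obtain ⟨L2, hR2⟩ : ∃ L, Tendsto (fun z => (derivative (derivative (poly n (δ z)))).eval (x0 + z))
      (𝓝[>] 0) (𝓝 L) := by
    refine ⟨∑ k ∈ range (n + 1), r * a k ^ (r - 1) * d k * k * ((k - 1 : ℕ) : ℝ) *
      x0 ^ (k - 1 - 1), ?_⟩
    have h2 : Tendsto (fun z => ∑ k ∈ range (n + 1), δ z k * k * ((k - 1 : ℕ) : ℝ) *
        (x0 + z) ^ (k - 1 - 1)) (𝓝[>] 0)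
        (𝓝 (∑ k ∈ range (n + 1), r * a k ^ (r - 1) * d k * k * ((k - 1 : ℕ) : ℝ) *
          x0 ^ (k - 1 - 1))) :=
      tendsto_finsetSum _ (fun k hk =>
        (((hδlim k (mem hk)).mul_const _).mul_const _).mul (hx.pow (k - 1 - 1)))
    refine h2.congr (fun z => ?_)
    rw [eval_dd]
  -- limits of the unperturbed factors
  have hev : ∀ P : ℝ[X], Tendsto (fun z => P.eval (x0 + z)) (𝓝[>] 0) (𝓝 (P.eval x0)) :=
    fun P => (P.continuous.tendsto x0).comp hx
  set Bf : ℝ → ℝ := fun z => ((j : ℝ) + 2) * Q.eval (x0 + z) + z * (derivative Q).eval (x0 + z)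
    with hBf
  set Cf : ℝ → ℝ := fun z => ((j : ℝ) + 2) * ((j : ℝ) + 1) * Q.eval (x0 + z) +
    2 * ((j : ℝ) + 2) * z * (derivative Q).eval (x0 + z) +
    z ^ 2 * (derivative (derivative Q)).eval (x0 + z) with hCf
  have hA : Tendsto (fun z => Q.eval (x0 + z) + 2 * c / G * (poly n (δ z)).eval (x0 + z))
      (𝓝[>] 0) (𝓝 (3 * c)) := by
    have := (hev Q).add (hR0.const_mul (2 * c / G))
    have e : Q.eval x0 + 2 * c / G * G = 3 * c := by
      rw [← hc]
      field_simp
      ring
    rwa [e] at this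
  have hB : Tendsto (fun z => Bf z + z * (2 * c / G * (derivative (poly n (δ z))).eval (x0 + z)))
      (𝓝[>] 0) (𝓝 (((j : ℝ) + 2) * c)) := by
    have h2 := ((hev Q).const_mul ((j : ℝ) + 2)).add (hz0.mul (hev (derivative Q)))
    have h3 := h2.add (hz0.mul (hR1.const_mul (2 * c / G)))
    have e : ((j : ℝ) + 2) * Q.eval x0 + 0 * (derivative Q).eval x0 + 0 * (2 * c / G * L1) =
        ((j : ℝ) + 2) * c := by
      rw [← hc]; ring
    rw [e] at h3
    exact h3
  have hC : Tendsto (fun z => Cf z +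
      z ^ 2 * (2 * c / G * (derivative (derivative (poly n (δ z)))).eval (x0 + z)))
      (𝓝[>] 0) (𝓝 (((j : ℝ) + 2) * ((j : ℝ) + 1) * c)) := by
    have h2 := (((hev Q).const_mul (((j : ℝ) + 2) * ((j : ℝ) + 1))).add
      ((hz0.const_mul (2 * ((j : ℝ) + 2))).mul (hev (derivative Q)))).add
      ((hz0.pow 2).mul (hev (derivative (derivative Q))))
    have h3 := h2.add ((hz0.pow 2).mul (hR2.const_mul (2 * c / G)))
    have e : ((j : ℝ) + 2) * ((j : ℝ) + 1) * Q.eval x0 +
        2 * ((j : ℝ) + 2) * 0 * (derivative Q).eval x0 +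
        0 ^ 2 * (derivative (derivative Q)).eval x0 + 0 ^ 2 * (2 * c / G * L2) =
        ((j : ℝ) + 2) * ((j : ℝ) + 1) * c := by
      rw [← hc]; ring
    rw [e] at h3
    exact h3
  have hfin := (hB.pow 2).sub (hA.mul hC)
  have hneg : (((j : ℝ) + 2) * c) ^ 2 - 3 * c * (((j : ℝ) + 2) * ((j : ℝ) + 1) * c) < 0 := by
    have hj0 : (0 : ℝ) ≤ j := Nat.cast_nonneg j
    have e : (((j : ℝ) + 2) * c) ^ 2 - 3 * c * (((j : ℝ) + 2) * ((j : ℝ) + 1) * c) =
        -(c ^ 2 * (((j : ℝ) + 2) * (2 * j + 1))) := by ring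
    rw [e]
    have : 0 < c ^ 2 := by positivity
    have h3 : 0 < ((j : ℝ) + 2) * (2 * j + 1) := by positivity
    have := mul_pos this h3
    linarith
  have hev1 := hfin.eventually (eventually_lt_nhds hneg)
  have hev2 : ∀ᶠ z in 𝓝[>] (0 : ℝ), PF n (fun k => (a k + κ z * d k) ^ r) := hκ0.eventually hPF
  obtain ⟨z, ⟨⟨hz1, hz2⟩, hz3⟩, hz4⟩ :=
    (((hev1.and hev2).and hκne).and self_mem_nhdsWithin).exists
  have hzpos : (0 : ℝ) < z := hz4
  have hL := laguerre_ineq hz2 (x0 + z)
  -- decomposition of the perturbed polynomial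
  have hdec : poly n (fun k => (a k + κ z * d k) ^ r) = p + C (κ z) * poly n (δ z) := by
    ext k
    rw [coeff_add, coeff_C_mul, hp, coeff_poly, coeff_poly, coeff_poly]
    split_ifs with hk
    · simp only [hδ]
      field_simp
      ring
    · ring
  have hd1 : derivative p = (X - C x0) ^ (j + 1) * (C ((j : ℝ) + 2) * Q + (X - C x0) * derivative Q) := by
    rw [hQ, derivative_mul, derivative_X_sub_C_pow]
    push_cast
    ring
  have hd2 : derivative (derivative p) = (X - C x0) ^ j *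
      (C (((j : ℝ) + 2) * ((j : ℝ) + 1)) * Q + C (2 * ((j : ℝ) + 2)) * (X - C x0) * derivative Q +
        (X - C x0) ^ 2 * derivative (derivative Q)) := by
    rw [hd1, derivative_mul, derivative_X_sub_C_pow]
    simp only [derivative_add, derivative_mul, derivative_C, derivative_sub, derivative_X, zero_mul,
      zero_add, sub_zero, one_mul]
    push_cast
    simp only [C_mul, C_add]
    have e2 : (C (2 : ℝ) : ℝ[X]) = 2 := map_ofNat C 2
    have e1 : (C (1 : ℝ) : ℝ[X]) = 1 := by simp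
    have ej : (C ((j : ℝ)) : ℝ[X]) = (j : ℝ[X]) := map_natCast C j
    simp only [e2, e1, ej]
    ring
  have v0 : (poly n (fun k => (a k + κ z * d k) ^ r)).eval (x0 + z) =
      z ^ (j + 2) * (Q.eval (x0 + z) + 2 * c / G * (poly n (δ z)).eval (x0 + z)) := by
    rw [hdec, eval_add, eval_C_mul, hQ]
    simp only [eval_mul, eval_pow, eval_sub, eval_X, eval_C, hκ]
    ring
  have v1 : (derivative (poly n (fun k => (a k + κ z * d k) ^ r))).eval (x0 + z) =
      z ^ (j + 1) * (Bf z + z * (2 * c / G * (derivative (poly n (δ z))).eval (x0 + z))) := by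
    rw [hdec, derivative_add, derivative_C_mul, eval_add, eval_C_mul, hd1]
    simp only [eval_mul, eval_pow, eval_sub, eval_X, eval_C, eval_add, hκ, hBf]
    ring
  have v2 : (derivative (derivative (poly n (fun k => (a k + κ z * d k) ^ r)))).eval (x0 + z) =
      z ^ j * (Cf z +
        z ^ 2 * (2 * c / G * (derivative (derivative (poly n (δ z)))).eval (x0 + z))) := by
    rw [hdec, derivative_add, derivative_C_mul, derivative_add, derivative_C_mul, eval_add,
      eval_C_mul, hd2]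
    simp only [eval_mul, eval_pow, eval_sub, eval_X, eval_C, eval_add, hκ, hCf]
    ring
  rw [v0, v1, v2] at hL
  have hzz : 0 < z ^ (2 * j + 2) := pow_pos hzpos _
  have h5 := mul_neg_of_pos_of_neg hzz hz1
  have e : z ^ (2 * j + 2) *
      ((Bf z + z * (2 * c / G * (derivative (poly n (δ z))).eval (x0 + z))) ^ 2 -
        (Q.eval (x0 + z) + 2 * c / G * (poly n (δ z)).eval (x0 + z)) *
          (Cf z + z ^ 2 * (2 * c / G * (derivative (derivative (poly n (δ z)))).eval (x0 + z)))) =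
      (z ^ (j + 1) * (Bf z + z * (2 * c / G * (derivative (poly n (δ z))).eval (x0 + z)))) ^ 2 -
      z ^ (j + 2) * (Q.eval (x0 + z) + 2 * c / G * (poly n (δ z)).eval (x0 + z)) *
        (z ^ j * (Cf z +
          z ^ 2 * (2 * c / G * (derivative (derivative (poly n (δ z)))).eval (x0 + z)))) := by
    ring
  rw [e] at h5
  linarith

end Pool.Agent.ST50
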