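import Mathlib
import Pool.Agent.ST50.Cube
import Pool.Agent.ST50.EPStep
import Pool.Agent.H62LR.Compose
import Pool.Agent.H62LR.Mult

/-!
# ST50.Endgame: absence of extremal points implies that all real powers `r ≥ 2` preserve `𝒫⁺`
-/

open Polynomial Finset Filter Topology

namespace Pool.Agent.ST50

open Pool.Agent.H62LR

lemma pf_mul {n : ℕ} {a b : ℕ → ℝ} (ha : PF n a) (hb : PF n b) : PF n (fun k => a k * b k) := by
  refine ((ms_choose n le_rfl).apply (ha.comp hb)).congr (fun k hk => ?_)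
  have := (choose_pos' hk).ne'
  rw [Real.rpow_one]
  field_simp

lemma poly_cf {ι : Type*} [DecidableEq ι] (s : Finset ι) (y : ι → ℝ) :
    poly s.card (cf s y) = pr s y := by
  ext k
  rw [coeff_poly]
  split_ifs with hk
  · rfl
  · have := cf_eq_zero (s := s) y (k := k) (by omega)
    unfold cf at this
    rw [this]

lemma pf_cf {ι : Type*} [DecidableEq ι] {s : Finset ι} {y : ι → ℝ} (hy : ∀ l ∈ s, 0 < y l) :
    PF s.card (cf s y) := by
  refine ⟨fun k hk => cf_pos hy hk, fun w hw => ?_⟩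
  rw [← aeval_poly, poly_cf]
  unfold pr
  rw [map_prod]
  refine Finset.prod_ne_zero_iff.2 (fun l hl h => ?_)
  have h1 := congrArg Complex.im h
  simp at h1
  have h2 := mul_pos (hy l hl) hw
  rcases h1 with h1 | h1
  · exact (hy l hl).ne' h1
  · exact hw.ne' h1

/-- closedness in the exponent -/
lemma pf_closed {n : ℕ} {a : ℕ → ℝ} {c d : ℝ} (hcd : c < d) (ha : ∀ k ≤ n, 0 < a k)
    (h : ∀ r, c ≤ r → r < d → PF n (fun k => a k ^ r)) : PF n (fun k => a k ^ d) := by
  refine ⟨fun k hk => Real.rpow_pos_of_pos (ha k hk) d, fun w hw h0 => ?_⟩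
  have hc1 : Tendsto (fun r => a n ^ r * w.im ^ n) (𝓝[<] d) (𝓝 (a n ^ d * w.im ^ n)) := by
    refine Tendsto.mono_left ?_ nhdsWithin_le_nhds
    exact ((Real.continuous_const_rpow (ha n le_rfl).ne').tendsto d).mul_const _
  have hc2 : Tendsto (fun r => ‖ev n (fun k => a k ^ r) w‖) (𝓝[<] d)
      (𝓝 ‖ev n (fun k => a k ^ d) w‖) := by
    refine Tendsto.mono_left ?_ nhdsWithin_le_nhds
    refine Tendsto.norm ?_
    unfold ev
    refine tendsto_finsetSum _ (fun k hk => ?_)
    have hk' : k ≤ n := by simpa [Nat.lt_succ_iff] using hk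
    refine Tendsto.mul_const _ ?_
    exact (Complex.continuous_ofReal.tendsto _).comp
      ((Real.continuous_const_rpow (ha k hk').ne').tendsto d)
  have h1 : a n ^ d * w.im ^ n ≤ ‖ev n (fun k => a k ^ d) w‖ := by
    refine le_of_tendsto_of_tendsto hc1 hc2 ?_
    have h2 : ∀ᶠ r in 𝓝[<] d, c < r := nhdsWithin_le_nhds (eventually_gt_nhds hcd)
    filter_upwards [h2, self_mem_nhdsWithin] with r h3 h4
    exact (h r h3.le h4).lower hw
  rw [h0, norm_zero] at h1
  have := mul_pos (Real.rpow_pos_of_pos (ha n le_rfl) d) (pow_pos hw n)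
  linarith

variable {ι : Type*} [DecidableEq ι]

lemma cz_rpow {s : Finset ι} {z : ι → ℝ} (hz : ∀ l ∈ s, 0 ≤ z l) (hz' : ∀ l ∈ s, z l < 1)
    (r : ℝ) (k : ℕ) : cz s z k ^ r =
      (∏ l ∈ s, (1 - z l)) ^ r * cf s (fun l => z l / (1 - z l)) k ^ r := by
  rw [cz_eq hz', Real.mul_rpow]
  · exact Finset.prod_nonneg (fun l hl => by linarith [hz' l hl])
  · exact cf_nonneg (fun l hl => div_nonneg (hz l hl) (by linarith [hz' l hl])) k

/-- a multiple zero gives a point of the compact set -/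
lemma exists_dz {s : Finset ι} {y : ι → ℝ} (hy : ∀ l ∈ s, 0 < y l) {r x : ℝ} (hr : 0 < r)
    (hx : x < 0) (h0 : ∑ k ∈ range (s.card + 1), cf s y k ^ r * x ^ k = 0)
    (h1 : ∑ k ∈ range (s.card + 1), (k : ℝ) * (cf s y k ^ r * x ^ k) = 0) :
    ∃ z ∈ Set.Icc (0 : ι → ℝ) 1, D0 s r z = 0 ∧ D1 s r z = 0 := by
  set μ : ℝ := (-x) ^ (1 / r) with hμ
  have hx' : 0 < -x := by linarith
  have hμ0 : 0 < μ := Real.rpow_pos_of_pos hx' _
  set z : ι → ℝ := fun l => if l ∈ s then μ * y l / (1 + μ * y l) else 0 with hz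
  have hzs : ∀ l ∈ s, z l = μ * y l / (1 + μ * y l) := fun l hl => by simp only [hz, if_pos hl]
  have hz0 : ∀ l ∈ s, 0 ≤ z l := fun l hl => by
    rw [hzs l hl]
    have := mul_pos hμ0 (hy l hl)
    positivity
  have hz1 : ∀ l ∈ s, z l < 1 := fun l hl => by
    rw [hzs l hl]
    have := mul_pos hμ0 (hy l hl)
    rw [div_lt_one (by linarith)]
    linarith
  have hquot : ∀ l ∈ s, z l / (1 - z l) = μ * y l := fun l hl => by
    rw [hzs l hl]
    have := mul_pos hμ0 (hy l hl)
    have h2 : 1 + μ * y l ≠ 0 := by linarith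
    have h3 : 1 - μ * y l / (1 + μ * y l) = 1 / (1 + μ * y l) := by
      field_simp
      ring
    rw [h3]
    field_simp
  have hterm : ∀ k, (-1 : ℝ) ^ k * cz s z k ^ r =
      (∏ l ∈ s, (1 - z l)) ^ r * (cf s y k ^ r * x ^ k) := by
    intro k
    rw [cz_rpow hz0 hz1, cf_congr hquot, cf_smul,
      Real.mul_rpow (pow_nonneg hμ0.le k) (cf_nonneg (fun l hl => (hy l hl).le) k)]
    have e : (μ ^ k) ^ r = (-x) ^ k := by
      rw [hμ, ← Real.rpow_natCast, ← Real.rpow_mul hx'.le, ← Real.rpow_mul hx'.le,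
        ← Real.rpow_natCast]
      congr 1
      field_simp
    have e2 : x ^ k = (-1) ^ k * (-x) ^ k := by
      rw [← mul_pow]; ring_nf
    rw [e, e2]
    ring
  refine ⟨z, ⟨fun l => ?_, fun l => ?_⟩, ?_, ?_⟩
  · by_cases hl : l ∈ s
    · exact hz0 l hl
    · simp only [hz, if_neg hl]; exact le_rfl
  · by_cases hl : l ∈ s
    · exact (hz1 l hl).le
    · simp only [hz, if_neg hl]; exact zero_le_one
  · unfold D0
    simp only [hterm]
    rw [← Finset.mul_sum, h0, mul_zero]
  · unfold D1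
    simp only [hterm]
    have : ∑ k ∈ range (s.card + 1), (k : ℝ) * ((∏ l ∈ s, (1 - z l)) ^ r * (cf s y k ^ r * x ^ k)) =
        (∏ l ∈ s, (1 - z l)) ^ r * ∑ k ∈ range (s.card + 1), (k : ℝ) * (cf s y k ^ r * x ^ k) := by
      rw [Finset.mul_sum]
      exact Finset.sum_congr rfl (fun k _ => by ring)
    rw [this, h1, mul_zero]

lemma pf_two {s : Finset ι} {y : ι → ℝ} (hy : ∀ l ∈ s, 0 < y l) :
    PF s.card (fun k => cf s y k ^ (2 : ℝ)) := by
  refine (pf_mul (pf_cf hy) (pf_cf hy)).congr (fun k _ => ?_)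
  rw [Real.rpow_two, sq]

/-- no multiple zeros for exponents in `[2, ρ)` gives `PF` there -/
lemma pf_of_no_dz {s : Finset ι} {ρ : ℝ}
    (h : ∀ r, 2 ≤ r → r < ρ → ∀ z ∈ Set.Icc (0 : ι → ℝ) 1, D0 s r z = 0 → D1 s r z = 0 → False)
    {y : ι → ℝ} (hy : ∀ l ∈ s, 0 < y l) {r : ℝ} (hr : 2 ≤ r) (hr' : r < ρ) :
    PF s.card (fun k => cf s y k ^ r) := by
  refine homotopy (n := s.card) (fun t k => cf s y k ^ t) (c := 2) (d := r) ?_ ?_ (pf_two hy) ?_ r
    ⟨hr, le_rfl⟩
  · intro k hk
    exact (Real.continuous_const_rpow (cf_pos hy hk).ne').continuousOn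
  · intro t _ k hk
    exact Real.rpow_pos_of_pos (cf_pos hy hk) t
  · intro t ht x hx h0 h1
    obtain ⟨z, hz, h2, h3⟩ := exists_dz hy (by linarith [ht.1]) hx h0 h1
    exact h t ht.1 (ht.2.trans_lt hr') z hz h2 h3

/-- **Main induction.** -/
theorem no_dz (H : ∀ r, 2 ≤ r → r < 3 → NoEP r) (s : Finset ℕ) :
    ∀ r, 2 ≤ r → r < 3 → ∀ z ∈ Set.Icc (0 : ℕ → ℝ) 1, D0 s r z = 0 → D1 s r z = 0 → False := by
  induction s using Finset.strongInduction with
  | H s ih =>
    intro ρ hρ2 hρ3 z1 hz1 h0 h1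
    obtain ⟨⟨r0, z0⟩, hmem, hmin⟩ := (isCompact_dz s ρ).exists_isMinOn
      ⟨(ρ, z1), ⟨⟨⟨hρ2, le_rfl⟩, hz1⟩, h0, h1⟩⟩ continuous_fst.continuousOn
    obtain ⟨⟨⟨hr2, hr3⟩, hz0⟩, h00, h01⟩ := hmem
    simp only at hr2 hr3 hz0 h00 h01
    have hr0 : (0 : ℝ) < r0 := by linarith
    have hr3' : r0 < 3 := hr3.trans_lt hρ3
    -- interior
    have hint : ∀ l ∈ s, 0 < z0 l ∧ z0 l < 1 := by
      intro l hl
      by_contra hcon
      have hl0 : 0 ≤ z0 l := hz0.1 l
      have hl1 : z0 l ≤ 1 := hz0.2 l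
      have : z0 l = 0 ∨ z0 l = 1 := by
        by_contra h2
        push Not at h2
        exact hcon ⟨lt_of_le_of_ne hl0 (Ne.symm h2.1), lt_of_le_of_ne hl1 h2.2⟩
      obtain ⟨h3, h4⟩ := dz_boundary hr0 hl this h00 h01
      exact ih _ (Finset.erase_ssubset hl) r0 hr2 hr3' z0 hz0 h3 h4
    -- PF below and at `r0`
    have hPF : ∀ y : ℕ → ℝ, (∀ l ∈ s, 0 < y l) → PF s.card (fun k => cf s y k ^ r0) := by
      intro y hy
      rcases eq_or_lt_of_le hr2 with h2 | h2
      · rw [← h2]; exact pf_two hy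
      · refine pf_closed h2 (fun k hk => cf_pos hy hk) (fun r hr hr' => ?_)
        refine pf_of_no_dz (ρ := r0) (fun t ht ht' z hz h3 h4 => ?_) hy hr hr'
        have := hmin (show ((t, z) : ℝ × (ℕ → ℝ)) ∈ _ from
          ⟨⟨⟨ht, (ht'.le.trans hr3)⟩, hz⟩, h3, h4⟩)
        simp only [Set.mem_ofPred_eq] at this
        linarith
    -- the extremal point
    set y : ℕ → ℝ := fun l => z0 l / (1 - z0 l) with hy
    have hypos : ∀ l ∈ s, 0 < y l := fun l hl =>
      div_pos (hint l hl).1 (by linarith [(hint l hl).2])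
    have hP : 0 < (∏ l ∈ s, (1 - z0 l)) ^ r0 :=
      Real.rpow_pos_of_pos (Finset.prod_pos (fun l hl => by linarith [(hint l hl).2])) _
    have hcz : ∀ k, cz s z0 k ^ r0 = (∏ l ∈ s, (1 - z0 l)) ^ r0 * cf s y k ^ r0 := fun k =>
      cz_rpow (fun l hl => (hint l hl).1.le) (fun l hl => (hint l hl).2) r0 k
    have e0 : ∑ k ∈ range (s.card + 1), (-1 : ℝ) ^ k * cf s y k ^ r0 = 0 := by
      unfold D0 at h00
      simp only [hcz] at h00
      have : ∑ k ∈ range (s.card + 1), (-1 : ℝ) ^ k *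
          ((∏ l ∈ s, (1 - z0 l)) ^ r0 * cf s y k ^ r0) = (∏ l ∈ s, (1 - z0 l)) ^ r0 *
          ∑ k ∈ range (s.card + 1), (-1 : ℝ) ^ k * cf s y k ^ r0 := by
        rw [Finset.mul_sum]
        exact Finset.sum_congr rfl (fun k _ => by ring)
      rw [this] at h00
      exact (mul_eq_zero.1 h00).resolve_left hP.ne'
    have e1 : ∑ k ∈ range (s.card + 1), (k : ℝ) * ((-1 : ℝ) ^ k * cf s y k ^ r0) = 0 := by
      unfold D1 at h01
      simp only [hcz] at h01
      have : ∑ k ∈ range (s.card + 1), (k : ℝ) * ((-1 : ℝ) ^ k *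
          ((∏ l ∈ s, (1 - z0 l)) ^ r0 * cf s y k ^ r0)) = (∏ l ∈ s, (1 - z0 l)) ^ r0 *
          ∑ k ∈ range (s.card + 1), (k : ℝ) * ((-1 : ℝ) ^ k * cf s y k ^ r0) := by
        rw [Finset.mul_sum]
        exact Finset.sum_congr rfl (fun k _ => by ring)
      rw [this] at h01
      exact (mul_eq_zero.1 h01).resolve_left hP.ne'
    refine H r0 hr2 hr3' s y hypos e0 (fun l hl => ?_)
    set d : ℕ → ℝ := fun k => (X * pr (s.erase l) y).coeff k with hd
    have hd0 : d 0 = 0 := by simp [hd]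
    have hd1 : ∀ k, d (k + 1) = cf (s.erase l) y k := fun k => by
      simp only [hd, coeff_X_mul]
      rfl
    have hstep : ∑ k ∈ range (s.card + 1), cf s y k ^ (r0 - 1) * d k * (-1 : ℝ) ^ k = 0 := by
      refine ep_step hr0 (fun k hk => cf_pos hypos hk) ?_ ?_ ?_
      · have h5 : ∀ᶠ κ in 𝓝 (0 : ℝ), -y l < κ := eventually_gt_nhds (by linarith [hypos l hl])
        filter_upwards [h5] with κ hκ
        have h6 := hPF (Function.update y l (y l + κ)) (fun m hm => by
          by_cases hml : m = l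
          · subst hml
            rw [Function.update_self]
            linarith
          · rw [Function.update_of_ne hml]
            exact hypos m hm)
        refine h6.congr (fun k _ => ?_)
        have h7 : pr s (Function.update y l (y l + κ)) =
            pr s y + C κ * (X * pr (s.erase l) y) := by
          rw [pr_erase hl, pr_erase hl y, Function.update_self]
          have : pr (s.erase l) (Function.update y l (y l + κ)) = pr (s.erase l) y :=
            pr_congr (fun m hm => by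
              rw [Function.update_of_ne (Finset.ne_of_mem_erase hm)])
          rw [this, C_add]
          ring
        have h8 : cf s (Function.update y l (y l + κ)) k = cf s y k + κ * d k := by
          unfold cf
          rw [h7, coeff_add, coeff_C_mul]
        rw [h8]
      · rw [eval_poly, ← e0]
        exact Finset.sum_congr rfl (fun k _ => by ring)
      · rw [eval_d]
        have : ∑ k ∈ range (s.card + 1), cf s y k ^ r0 * (k : ℝ) * (-1 : ℝ) ^ (k - 1) =
            -∑ k ∈ range (s.card + 1), (k : ℝ) * ((-1 : ℝ) ^ k * cf s y k ^ r0) := by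
          rw [← Finset.sum_neg_distrib]
          refine Finset.sum_congr rfl (fun k _ => ?_)
          rcases k with _ | k
          · simp
          · rw [Nat.add_sub_cancel, pow_succ]
            ring
        rw [this, e1, neg_zero]
    rw [Finset.sum_range_succ', hd0, mul_zero, zero_mul, add_zero] at hstep
    have : ∑ k ∈ range s.card, (-1 : ℝ) ^ k * (cf s y (k + 1) ^ (r0 - 1) * cf (s.erase l) y k) =
        -∑ k ∈ range s.card, cf s y (k + 1) ^ (r0 - 1) * d (k + 1) * (-1 : ℝ) ^ (k + 1) := by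
      rw [← Finset.sum_neg_distrib]
      refine Finset.sum_congr rfl (fun k _ => ?_)
      rw [hd1, pow_succ]
      ring
    rw [this, hstep, neg_zero]

lemma exists_index (m : Multiset ℝ) : ∃ y : ℕ → ℝ,
    (m.map (fun ρ => (1 : ℝ[X]) + C ρ * X)).prod = pr (range (Multiset.card m)) y ∧
      ∀ l ∈ range (Multiset.card m), y l ∈ m := by
  induction m using Multiset.induction_on with
  | empty => exact ⟨fun _ => 0, by simp [pr], by simp⟩
  | cons a m ih =>
    obtain ⟨y, hy1, hy2⟩ := ih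
    refine ⟨Function.update y (Multiset.card m) a, ?_, ?_⟩
    · rw [Multiset.map_cons, Multiset.prod_cons, Multiset.card_cons, hy1]
      unfold pr
      rw [Finset.prod_range_succ, Function.update_self, mul_comm]
      congr 1
      refine Finset.prod_congr rfl (fun l hl => ?_)
      rw [Function.update_of_ne (Finset.mem_range.1 hl).ne]
    · intro l hl
      rw [Multiset.card_cons, Finset.mem_range] at hl
      by_cases h : l = Multiset.card m
      · subst h
        rw [Function.update_self]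
        exact Multiset.mem_cons_self _ _
      · rw [Function.update_of_ne h]
        exact Multiset.mem_cons_of_mem (hy2 l (Finset.mem_range.2 (by omega)))

lemma pf_rpow_lt (H : ∀ r, 2 ≤ r → r < 3 → NoEP r) {n : ℕ} {a : ℕ → ℝ} (ha : PF n a) {r : ℝ}
    (hr : 2 ≤ r) (hr' : r < 3) : PF n (fun k => a k ^ r) := by
  obtain ⟨m, hcard, hpos, hprod⟩ := ha.exists_roots
  obtain ⟨y, hy1, hy2⟩ := exists_index m
  rw [hcard] at hy1 hy2
  have hy : ∀ l ∈ range n, 0 < y l := fun l hl => hpos _ (hy2 l hl)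
  have h1 := pf_of_no_dz (s := range n) (ρ := 3) (no_dz H (range n)) hy hr hr'
  rw [Finset.card_range] at h1
  have ha0 := ha.1 0 (Nat.zero_le _)
  refine (h1.const_mul (Real.rpow_pos_of_pos ha0 r)).congr (fun k hk => ?_)
  have h2 : a k = a 0 * cf (range n) y k := by
    have := congrArg (fun q => q.coeff k) hprod
    simp only [coeff_poly, if_pos hk, coeff_C_mul, hy1] at this
    exact this
  rw [h2, Real.mul_rpow ha0.le (cf_nonneg (fun l hl => (hy l hl).le) k)]

/-- **All real powers `r ≥ 2` preserve `PF`, provided that there are no extremal points.** -/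
theorem pf_rpow (H : ∀ r, 2 ≤ r → r < 3 → NoEP r) {n : ℕ} {a : ℕ → ℝ} (ha : PF n a) {r : ℝ}
    (hr : 2 ≤ r) : PF n (fun k => a k ^ r) := by
  have key : ∀ N : ℕ, ∀ r : ℝ, 2 ≤ r → r < 3 + N → PF n (fun k => a k ^ r) := by
    intro N
    induction N with
    | zero => intro r h1 h2; exact pf_rpow_lt H ha h1 (by simpa using h2)
    | succ N ih =>
      intro r h1 h2
      rcases lt_or_ge r 3 with h3 | h3
      · exact pf_rpow_lt H ha h1 h3
      · have h4 := pf_mul (ih (r - 1) (by linarith) (by push_cast at h2; linarith)) ha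
        refine h4.congr (fun k hk => ?_)
        have h0 := ha.1 k hk
        have : a k ^ r = a k ^ ((r - 1) + 1) := by ring_nf
        rw [this, Real.rpow_add h0, Real.rpow_one]
  obtain ⟨N, hN⟩ := exists_nat_gt r
  exact key N r hr (by linarith)

/-- the same in the language of the problem -/
theorem preserves_rpow (H : ∀ r, 2 ≤ r → r < 3 → NoEP r) {r c : ℝ} (hr : 2 ≤ r) (hc : 0 < c) :
    Pool.Agent.H49.RR.Preserves (fun t => c * t ^ r) := by
  intro p hp
  exact ((pf_rpow H (pf_of_pplus hp) hr).const_mul hc).realRooted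

end Pool.Agent.ST50
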